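import Pool.Agent.Helper41.LF.GoalsA

/-!
# Project LF, packet SPC: separated points in a set of positive measure
-/

set_option autoImplicit false

namespace Pool.Agent.Helper41.LF

open MeasureTheory Finset

theorem thm_SPC : S_SPC := by
  intro k
  induction k with
  | zero =>
    intro E u v s hs hE hvol
    have hne : E.Nonempty := by
      by_contra hne
      rw [Set.not_nonempty_iff_eq_empty] at hne
      rw [hne] at hvol
      simp at hvol
    obtain ⟨e, he⟩ := hne
    refine ⟨fun _ => e, fun _ => he, fun i j hij => ?_⟩
    exact absurd (Subsingleton.elim (α := Fin 1) i j) hij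
  | succ k ih =>
    intro E u v s hs hE hvol
    have hne : E.Nonempty := by
      by_contra hne
      rw [Set.not_nonempty_iff_eq_empty] at hne
      rw [hne] at hvol
      simp at hvol
    have hbd : BddBelow E := ⟨u, fun y hy => (hE hy).1⟩
    obtain ⟨r, hr, hlt⟩ := ENNReal.lt_iff_exists_add_pos_lt.1 hvol
    have hr' : (0 : ℝ) < r := by exact_mod_cast hr
    obtain ⟨e, he, her⟩ := exists_lt_of_csInf_lt hne (show sInf E < sInf E + r by linarith)
    have h0e : sInf E ≤ e := csInf_le hbd he
    have hcov : E ⊆ Set.Icc (sInf E) (e + s) ∪ (E ∩ Set.Ici (e + s)) := by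
      intro y hy
      rcases le_total y (e + s) with h | h
      · exact Or.inl ⟨csInf_le hbd hy, h⟩
      · exact Or.inr ⟨hy, h⟩
    have hks : (0 : ℝ) ≤ k * s := by positivity
    have hbig : ENNReal.ofReal (k * s) < volume (E ∩ Set.Ici (e + s)) := by
      by_contra hcon
      rw [not_lt] at hcon
      have h1 : volume E ≤ volume (Set.Icc (sInf E) (e + s)) + volume (E ∩ Set.Ici (e + s)) :=
        (measure_mono hcov).trans (measure_union_le _ _)
      have h2 : volume (Set.Icc (sInf E) (e + s)) ≤ ENNReal.ofReal s + (r : ENNReal) := by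
        rw [Real.volume_Icc]
        have h3 : e + s - sInf E ≤ s + r := by linarith
        refine (ENNReal.ofReal_le_ofReal h3).trans ?_
        rw [ENNReal.ofReal_add hs.le hr'.le, ENNReal.ofReal_coe_nnreal]
      have h4 : ENNReal.ofReal (((k + 1 : ℕ) : ℝ) * s) = ENNReal.ofReal s + ENNReal.ofReal (k * s) := by
        rw [← ENNReal.ofReal_add hs.le hks]
        congr 1
        push_cast
        ring
      have h5 : volume E ≤ ENNReal.ofReal (((k + 1 : ℕ) : ℝ) * s) + r := by
        refine h1.trans ((add_le_add h2 hcon).trans ?_)
        rw [h4]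
        exact le_of_eq (by ring)
      exact absurd hlt (not_lt.2 h5)
    obtain ⟨x, hx, hxx⟩ := ih (E ∩ Set.Ici (e + s)) u v s hs
      (Set.inter_subset_left.trans hE) hbig
    have hge : ∀ i, s ≤ |e - x i| := fun i => by
      have h6 : e + s ≤ x i := (hx i).2
      rw [abs_sub_comm]
      exact le_trans (by linarith) (le_abs_self _)
    refine ⟨Fin.cons e x, fun i => ?_, fun i j hij => ?_⟩
    · refine Fin.cases ?_ (fun i => ?_) i
      · rw [Fin.cons_zero]
        exact he
      · rw [Fin.cons_succ]
        exact (hx i).1
    · revert hij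
      refine Fin.cases ?_ (fun i => ?_) i
      · refine Fin.cases ?_ (fun j => ?_) j
        · intro hij
          exact absurd rfl hij
        · intro _
          rw [Fin.cons_zero, Fin.cons_succ]
          exact hge j
      · refine Fin.cases ?_ (fun j => ?_) j
        · intro _
          rw [Fin.cons_zero, Fin.cons_succ, abs_sub_comm]
          exact hge i
        · intro hij
          rw [Fin.cons_succ, Fin.cons_succ]
          exact hxx i j fun h => hij (by rw [h])

end Pool.Agent.Helper41.LF
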