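import Pool.Agent.Helper73.LF.Goals

/-! PROJECT LF, packet CNT: counting. -/

set_option autoImplicit false

namespace Pool.Agent.Helper46.LF

open Pool.Agent.Helper73.LF Pool.Agent.Helper98.Lang

lemma nd_nonneg (z : ℝ) : 0 ≤ nd z := abs_nonneg _

lemma nd_sub (z w : ℝ) : nd (z - w) ≤ nd z + nd w := by
  have h1 : nd (z - w) ≤ |(z - w) - ((round z - round w : ℤ) : ℝ)| := round_le _ _
  refine h1.trans ?_
  have e : (z - w) - ((round z - round w : ℤ) : ℝ) = (z - round z) - (w - round w) := by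
    push_cast; ring
  rw [e]
  exact abs_sub _ _

/-- Pairwise gaps at least `g`. -/
lemma gaps (g : ℕ) (S : Finset ℕ) : (∀ a ∈ S, 1 ≤ a) →
    (∀ a ∈ S, ∀ b ∈ S, a < b → a + g ≤ b) → S.Nonempty →
    ∃ b ∈ S, 1 + (S.card - 1) * g ≤ b := by
  induction S using Finset.induction_on_max with
  | empty => intro _ _ h; exact absurd h (by simp)
  | insert a S hmax ih =>
    intro h1 h2 _
    have ha : a ∉ S := fun h => lt_irrefl a (hmax a h)
    rw [Finset.card_insert_of_notMem ha]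
    refine ⟨a, Finset.mem_insert_self a S, ?_⟩
    rcases S.eq_empty_or_nonempty with rfl | hne
    · simpa using h1 a (by simp)
    · obtain ⟨b, hb, hb1⟩ := ih (fun x hx => h1 x (Finset.mem_insert_of_mem hx))
        (fun x hx y hy => h2 x (Finset.mem_insert_of_mem hx) y (Finset.mem_insert_of_mem hy)) hne
      have h3 := h2 b (Finset.mem_insert_of_mem hb) a (Finset.mem_insert_self a S) (hmax b hb)
      have h4 : 1 ≤ S.card := hne.card_pos
      have h5 : (S.card + 1 - 1) * g = (S.card - 1) * g + g := by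
        obtain ⟨c, hc⟩ : ∃ c, S.card = c + 1 := ⟨S.card - 1, by omega⟩
        rw [hc]
        simp only [Nat.add_sub_cancel]
        ring
      rw [h5]
      omega

/-- Two close elements. -/
lemma close (Y : ℕ) (S : Finset ℕ) (h1 : ∀ a ∈ S, 1 ≤ a ∧ a ≤ Y) (hc : 2 ≤ S.card) :
    ∃ a ∈ S, ∃ b ∈ S, a < b ∧ (b - a) * (S.card - 1) ≤ Y := by
  by_contra hno
  have h2 : ∀ a ∈ S, ∀ b ∈ S, a < b → Y < (b - a) * (S.card - 1) := by
    intro a ha b hb hab
    by_contra h
    exact hno ⟨a, ha, b, hb, hab, not_lt.1 h⟩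
  have hN : 0 < S.card - 1 := by omega
  obtain ⟨b, hb, hb1⟩ := gaps (Y / (S.card - 1) + 1) S (fun a ha => (h1 a ha).1)
    (fun a ha b hb hab => by
      have h3 := h2 a ha b hb hab
      have h4 : Y / (S.card - 1) < b - a := (Nat.div_lt_iff_lt_mul hN).2 h3
      omega) (Finset.card_pos.1 (by omega))
  have h5 := (h1 b hb).2
  have h6 : Y < (S.card - 1) * (Y / (S.card - 1) + 1) := Nat.lt_mul_div_succ Y hN
  omega

/-- CNT. -/
theorem cnt : GCnt := by
  intro m x hx δ hδ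
  obtain ⟨c0, hc0, h⟩ := hx δ hδ
  refine ⟨(2 ^ m + 1) / c0, by positivity, ?_⟩
  intro Y t ht ht1 S hS
  have hP : 0 < ∏ i, t i := Finset.prod_pos (fun i _ => ht i)
  have key : ∀ (n : ℕ) (B : ℝ) (s : Fin m → ℝ), 1 ≤ n → (n : ℝ) ≤ B →
      (∀ i, nd (n * x i) ≤ s i) → c0 ≤ (∏ i, s i) * B ^ (1 + δ) := by
    intro n B s hn hB hs
    have hn0 : (0 : ℝ) < n := by exact_mod_cast hn
    have hB0 : 0 < B := hn0.trans_le hB
    have h1 := h n hn
    have h2 : ∏ i, nd (n * x i) ≤ ∏ i, s i :=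
      Finset.prod_le_prod (fun i _ => nd_nonneg _) (fun i _ => hs i)
    have h3 : B ^ (-(1 + δ)) ≤ (n : ℝ) ^ (-(1 + δ)) :=
      Real.rpow_le_rpow_of_nonpos hn0 hB (by linarith)
    have h4 : c0 * B ^ (-(1 + δ)) ≤ ∏ i, s i :=
      (mul_le_mul_of_nonneg_left h3 hc0.le).trans (h1.trans h2)
    have h5 : B ^ (-(1 + δ)) * B ^ (1 + δ) = 1 := by
      rw [← Real.rpow_add hB0]
      simp
    calc c0 = c0 * B ^ (-(1 + δ)) * B ^ (1 + δ) := by rw [mul_assoc, h5, mul_one]
      _ ≤ (∏ i, s i) * B ^ (1 + δ) :=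
        mul_le_mul_of_nonneg_right h4 (Real.rpow_pos_of_pos hB0 _).le
  rcases S.eq_empty_or_nonempty with rfl | ⟨y0, hy0⟩
  · rw [Finset.card_empty, Nat.cast_zero]
    positivity
  · obtain ⟨h1, h2, h3⟩ := hS y0 hy0
    have hY : 1 ≤ Y := h1.trans h2
    have hY0 : (0 : ℝ) < Y := by exact_mod_cast hY
    have hYp : 0 < (Y : ℝ) ^ (1 + δ) := Real.rpow_pos_of_pos hY0 _
    have hA : c0 ≤ (∏ i, t i) * (Y : ℝ) ^ (1 + δ) := key y0 Y t h1 (by exact_mod_cast h2) h3
    have hA' : 1 ≤ 1 / c0 * ((∏ i, t i) * (Y : ℝ) ^ (1 + δ)) := by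
      rw [one_div, ← div_eq_inv_mul, le_div_iff₀ hc0, one_mul]
      exact hA
    have hB : (S.card : ℝ) - 1 ≤ 2 ^ m / c0 * ((∏ i, t i) * (Y : ℝ) ^ (1 + δ)) := by
      rcases Nat.lt_or_ge S.card 2 with hlt | hge
      · have h4 : (S.card : ℝ) ≤ 1 := by exact_mod_cast (by omega : S.card ≤ 1)
        have h5 : 0 ≤ 2 ^ m / c0 * ((∏ i, t i) * (Y : ℝ) ^ (1 + δ)) := by positivity
        linarith
      · obtain ⟨a, ha, b, hb, hab, hgap⟩ := close Y S (fun a ha => ⟨(hS a ha).1, (hS a ha).2.1⟩) hge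
        have hN : (1 : ℝ) ≤ (S.card : ℝ) - 1 := by
          have : (2 : ℝ) ≤ S.card := by exact_mod_cast hge
          linarith
        have hN0 : (0 : ℝ) < (S.card : ℝ) - 1 := by linarith
        have hn : 1 ≤ b - a := by omega
        have hgap' : ((b - a : ℕ) : ℝ) ≤ Y / ((S.card : ℝ) - 1) := by
          rw [le_div_iff₀ hN0]
          have e : ((S.card - 1 : ℕ) : ℝ) = (S.card : ℝ) - 1 := by
            rw [Nat.cast_sub (by omega), Nat.cast_one]
          rw [← e]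
          exact_mod_cast hgap
        have hk := key (b - a) (Y / ((S.card : ℝ) - 1)) (fun i => 2 * t i) hn hgap' (fun i => by
          have e : ((b - a : ℕ) : ℝ) * x i = (b : ℝ) * x i - (a : ℝ) * x i := by
            rw [Nat.cast_sub hab.le]; ring
          rw [e]
          have h6 := nd_sub ((b : ℝ) * x i) ((a : ℝ) * x i)
          have h7 := (hS a ha).2.2 i
          have h8 := (hS b hb).2.2 i
          linarith)
        rw [Finset.prod_mul_distrib, Finset.prod_const, Finset.card_univ, Fintype.card_fin,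
          Real.div_rpow hY0.le hN0.le] at hk
        have hNp : 0 < ((S.card : ℝ) - 1) ^ (1 + δ) := Real.rpow_pos_of_pos hN0 _
        have h9 : (S.card : ℝ) - 1 ≤ ((S.card : ℝ) - 1) ^ (1 + δ) :=
          Real.self_le_rpow_of_one_le hN (by linarith)
        have h10 : c0 * ((S.card : ℝ) - 1) ^ (1 + δ) ≤
            2 ^ m * (∏ i, t i) * (Y : ℝ) ^ (1 + δ) := by
          have := mul_le_mul_of_nonneg_right hk hNp.le
          rw [mul_assoc (2 ^ m * ∏ i, t i), div_mul_cancel₀ _ hNp.ne'] at this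
          exact this
        have h11 : c0 * ((S.card : ℝ) - 1) ≤ 2 ^ m * (∏ i, t i) * (Y : ℝ) ^ (1 + δ) :=
          (mul_le_mul_of_nonneg_left h9 hc0.le).trans h10
        rw [div_mul_eq_mul_div, le_div_iff₀ hc0]
        linarith
    have e : (2 ^ m + 1) / c0 * (Y : ℝ) ^ (1 + δ) * ∏ i, t i =
        2 ^ m / c0 * ((∏ i, t i) * (Y : ℝ) ^ (1 + δ)) +
          1 / c0 * ((∏ i, t i) * (Y : ℝ) ^ (1 + δ)) := by
      ring
    rw [e]
    linarith

end Pool.Agent.Helper46.LF
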